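import Pool.Agent.R552.DPat.Main

/-!
# The increasing uniform distant pattern is not the easiest one to avoid

For every `r` there are `m ≥ 3` and `q ∈ S_m` such that for all large `n` more permutations in `S_n`
avoid `dist_r(q)` than `dist_r(12⋯m)`.

Idea of the proof. A permutation which avoids `dist_r(12⋯m)` has no increasing subsequence of length
`(m - 1)(r + 1) + 1`, so there are at most `((m - 1)(r + 1) + 1)^(2n)` of them in `S_n`.
For the lower bound let `q` be the transposed `k × k` grid. Colour the dyadic rectangles of a
`2^R × 2^R` matrix with `Q = 8 (R + 1)²` random colours, and let the entries which lie in no rectangle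
of colour zero be ones. With positive probability at least three quarters of the entries are
ones, and there is no `k × k` grid of dyadic rectangles without colour zero, `k = Q (4R + 1)`. Then
injections of `h = 2^(R-2)` rows into the columns along ones give at least `(2^(R-6))^h`
permutations of `h` elements which avoid `q`: each interval of positions or values which is
occupied by a row or column of the grid lies in a minimal dyadic interval, and these are distinct.
As `q` is skew indecomposable, the growth rate of `Av(q)` is at least `2^(R-6)`, while `m = k²` is
polynomial in `R`.
-/

set_option autoImplicit false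

namespace Pool.Agent.Results.MP_52d9f3_co.IncreasingNotMaximal

open Pool.Agent.R552.DPat

/-- For every `r ≥ 0` there are `m ≥ 3` and `q ∈ S_m` such that for all large `n`
`|Av_n(dist_r(q))| > |Av_n(dist_r(12⋯m))|`. -/
theorem result (r : ℕ) : ∃ m : ℕ, 3 ≤ m ∧ ∃ q : Equiv.Perm (Fin m), ∃ n₀ : ℕ, ∀ n ≥ n₀,
    (Av n r (1 : Equiv.Perm (Fin m))).ncard < (Av n r q).ncard :=
  main r

end Pool.Agent.Results.MP_52d9f3_co.IncreasingNotMaximal
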